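import Pool.Agent.Helper69_KReg.Topo2
import Pool.Agent.Helper69_KReg.Upper

set_option autoImplicit false

namespace Pool.Agent.Results.MP_cb9a17_ag.ContEqPoly1235

open Helper69.KReg

/-- For `k = 1, 2, 3, 5`, all `n ≥ 1` and all `N`: if there is a (continuous) `k`-regular map
`ℂ^n → ℂ^N`, then there is a polynomial one. -/
theorem result (k n N : ℕ) (hk : k = 1 ∨ k = 2 ∨ k = 3 ∨ k = 5) (hn : 1 ≤ n)
    (h : ∃ f : (Fin n → ℂ) → (Fin N → ℂ), IsKRegular k n N f) :
    ∃ f : (Fin n → ℂ) → (Fin N → ℂ), IsKRegular k n N f ∧ IsPolynomialMap n N f := by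
  obtain ⟨f, hf⟩ := h
  rcases hk with rfl | rfl | rfl | rfl
  · exact upper 1 n N (by norm_num) (by norm_num) hn (by have := lower_one n N f hf; omega)
  · exact upper 2 n N (by norm_num) (by norm_num) hn (by have := lower_two n N hn f hf; omega)
  · have : Fact (Nat.Prime 3) := ⟨by norm_num⟩
    exact upper 3 n N (by norm_num) (by norm_num) hn (lower_odd 3 n N (by norm_num) hn f hf)
  · have : Fact (Nat.Prime 5) := ⟨by norm_num⟩
    exact upper 5 n N (by norm_num) (by norm_num) hn (lower_odd 5 n N (by norm_num) hn f hf)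

end Pool.Agent.Results.MP_cb9a17_ag.ContEqPoly1235
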