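import Pool.Agent.Helper69_KReg.Upper
import Pool.Agent.Helper69_KReg.Lower

set_option autoImplicit false

namespace Pool.Agent.Results.MP_cb9a17_ag.ExactPolyLeFive

open Helper69.KReg

/-- For `1 ≤ k ≤ 5` and `n ≥ 1` a polynomial `k`-regular map `ℂ^n → ℂ^N` exists if and only if
`N ≥ n(k-1)+1`. -/
theorem result (k n N : ℕ) (hk1 : 1 ≤ k) (hk : k ≤ 5) (hn : 1 ≤ n) :
    (∃ f : (Fin n → ℂ) → (Fin N → ℂ), IsKRegular k n N f ∧ IsPolynomialMap n N f) ↔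
      n * (k - 1) + 1 ≤ N :=
  ⟨fun ⟨f, hf, hp⟩ => lower k n N hk1 hn f hf hp, fun h => upper k n N hk1 hk hn h⟩

end Pool.Agent.Results.MP_cb9a17_ag.ExactPolyLeFive
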