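import Pool.Agent.Helper69_KReg.Lower

set_option autoImplicit false

namespace Pool.Agent.Results.MP_cb9a17_ag.PolyLowerBound

open Helper69.KReg

/-- For all `k, n ≥ 1`: a polynomial `k`-regular map `ℂ^n → ℂ^N` has `N ≥ n(k-1)+1`. -/
theorem result (k n N : ℕ) (hk : 1 ≤ k) (hn : 1 ≤ n) (f : (Fin n → ℂ) → (Fin N → ℂ))
    (hf : IsKRegular k n N f) (hp : IsPolynomialMap n N f) : n * (k - 1) + 1 ≤ N :=
  lower k n N hk hn f hf hp

end Pool.Agent.Results.MP_cb9a17_ag.PolyLowerBound
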